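import Mathlib
import Pool.Agent.MP_53fe41_co.Cube
import Pool.Agent.MP_53fe41_co.Codim

namespace Pool.Agent.Results.MP_53fe41_co.CodimBound

open Pool.Agent.MP_53fe41_co

/-- The polychromatic number is within a factor `400 k log (k+1)`, `k = d - l`, of the known
upper bound `binom (d+1) (l+1)` for its limit, for every `n`. -/
theorem result : ∀ l d n : ℕ, l < d → d < n →
    ((d + 1).choose (l + 1) : ℝ)
      ≤ 400 * (((d : ℝ) - l) * Real.log ((d : ℝ) - l + 1)) * (pc l n d : ℝ) := by
  intro l d n hld hdn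
  obtain ⟨q, hq0, hq1, hq2⟩ := exists_poly_codim l d hld
  have h1 : (q : ℝ) ≤ pc l n d := by exact_mod_cast le_pc hdn.le hq0 hq1
  have h2 : (1 : ℝ) ≤ (d : ℝ) - l := by
    have : ((l + 1 : ℕ) : ℝ) ≤ d := by exact_mod_cast hld
    push_cast at this
    linarith
  have h3 : 0 ≤ Real.log ((d : ℝ) - l + 1) := Real.log_nonneg (by linarith)
  exact hq2.trans (mul_le_mul_of_nonneg_left h1 (by positivity))

end Pool.Agent.Results.MP_53fe41_co.CodimBound
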