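import Mathlib
import Pool.Agent.MP_53fe41_co.Cube
import Pool.Agent.MP_53fe41_co.Dim

namespace Pool.Agent.Results.MP_53fe41_co.DimBound

open Pool.Agent.MP_53fe41_co

/-- The polychromatic number is within a factor `750 (l+1)^2 log (l+2)` of the known upper bound
`binom (d+1) (l+1)` for its limit, for every `d` and `n`. -/
theorem result : ∀ l d n : ℕ, l < d → d < n →
    ((d + 1).choose (l + 1) : ℝ)
      ≤ 750 * (((l : ℝ) + 1) ^ 2 * Real.log ((l : ℝ) + 2)) * (pc l n d : ℝ) := by
  intro l d n hld hdn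
  obtain ⟨q, hq0, hq1, hq2⟩ := exists_poly_dim l d hld
  have h1 : (q : ℝ) ≤ pc l n d := by exact_mod_cast le_pc hdn.le hq0 hq1
  have h3 : 0 ≤ Real.log ((l : ℝ) + 2) :=
    Real.log_nonneg (by linarith [Nat.cast_nonneg (α := ℝ) l])
  exact hq2.trans (mul_le_mul_of_nonneg_left h1 (by positivity))

end Pool.Agent.Results.MP_53fe41_co.DimBound
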