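import Mathlib
import Pool.Agent.MP_53fe41_co.h78.Main

namespace Pool.Agent.Results.MP_53fe41_co.TowerRange

open Pool.Agent.MP_53fe41_co

/-- As long as `n` is at most the tower of twos of height `h` topped by the codimension
`k = d - l`, the polychromatic number is at least `2 ^ t` whenever `(3 t) ^ (3 h + 4) ≤ k`. -/
theorem result : ∀ h t l k n : ℕ, (3 * t) ^ (3 * h + 4) ≤ k → l + k ≤ n →
    n ≤ (fun x : ℕ => 2 ^ x)^[h] k → 2 ^ t ≤ pc l n (l + k) := by
  intro h t l k n hk hn hn'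
  rcases Nat.lt_or_ge k (2 ^ t) with h1 | h1
  swap
  · exact h78.triv_le_pc hn (by positivity) (by omega)
  rcases Nat.eq_zero_or_pos t with rfl | ht
  · exact h78.triv_le_pc hn (by positivity) (by omega)
  have h2 : 2 ^ (h + 1) ≤ (3 * t) ^ (3 * h + 4) :=
    (Nat.pow_le_pow_right (by norm_num) (by omega)).trans (Nat.pow_le_pow_left (by omega) _)
  have h3 : h + 1 < t := (Nat.pow_lt_pow_iff_right (a := 2) (by norm_num)).1 (by omega)
  have h4 : 1 ≤ t ^ 3 := Nat.one_le_pow _ _ ht
  refine h78.tower_le_pc (H := h + 1) (N := t) ht h3.le (le_trans ?_ hk) hn (hn'.trans ?_)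
  · rw [show (3 * t) ^ (3 * h + 4) = (27 * t ^ 3) ^ (h + 1) * (3 * t) by
      rw [show 27 * t ^ 3 = (3 * t) ^ 3 by ring, ← pow_mul, ← pow_succ]; congr 1]
    exact Nat.mul_le_mul (Nat.pow_le_pow_left (by omega) _) (by omega)
  · rw [Function.iterate_succ_apply]
    exact Monotone.iterate (fun a b hab => Nat.pow_le_pow_right (by norm_num) hab) h h1.le

end Pool.Agent.Results.MP_53fe41_co.TowerRange
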