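import Mathlib
import Pool.Agent.MP_53fe41_co.h88.Bound

namespace Pool.Agent.Results.MP_53fe41_co.UpperBound

open Pool.Agent.MP_53fe41_co

theorem result : ∀ l d : ℕ, l < d → ∃ N : ℕ, ∀ n : ℕ, N ≤ n →
    (pc l n d : ℝ) ≤ 25000 * (1 / ((l : ℝ) + 1) + ((l : ℝ) + 1) / ((d : ℝ) + 1)) *
      ((d + 1).choose (l + 1) : ℝ) := by
  intro l d hld
  set B : ℝ := 25000 * (1 / ((l : ℝ) + 1) + ((l : ℝ) + 1) / ((d : ℝ) + 1)) *
    ((d + 1).choose (l + 1) : ℝ) with hB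
  obtain ⟨N, hN⟩ := h88.eventually_lt_of_not_poly (l := l) (d := d) (Nat.succ_pos ⌊B⌋₊) fun h => by
    have h1 := h88.poly_bound h (Nat.succ_pos l) (by omega)
    push_cast at h1
    exact absurd h1 (not_le.2 (Nat.lt_floor_add_one B))
  exact ⟨N, fun n hn => (Nat.le_floor_iff (by positivity)).1 (Nat.lt_succ_iff.1 (hN n hn))⟩

end Pool.Agent.Results.MP_53fe41_co.UpperBound
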